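import Pool.Agent.Helper1.T5g.ZDefs

/-!
# T5g (MP_12a1af), lines 6 and 7, Z8: the sizes

The constants of the schedule are absorbed by the late states; the primes by `OkF.big`.
-/

set_option autoImplicit false

namespace Pool.Agent.Helper2.T5g

open Finset
open Pool.Agent.Helper5.ET hiding Key Mk AA Rp keysOf el ext
open Pool.Agent.Helper27.T4
open Pool.Agent.Helper27.T5b Pool.Agent.Helper27.T5g Pool.Agent.Helper37.T5g
open Pool.Agent.Helper30.T5g hiding pz_prime pz_inj NL_pos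
open Pool.Agent.Helper44.T5g Pool.Agent.Helper44.T5b
open Pool.Agent.Helper84.T5g Pool.Agent.Helper22.NEARg Pool.Agent.Helper1.T5g
open Pool.Agent.Helper99.T5g (OkF)

theorem pJ_le_BP (k s : ℕ) (i : JF) : pJ k s i ≤ BP k := by
  rcases i with f | i
  · exact pr_le_BP k f
  · refine Fin.cases ?_ (fun f => ?_) i
    · exact (buf_lt_BP k).le
    · exact pz_le k (s + 1) f

theorem card_JF : (univ : Finset JF).card = 7 := by
  rw [card_univ]
  simp [JF]

theorem CJ_le (k s : ℕ) : CJ k s ≤ (2 * BP k) ^ 7 := by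
  unfold CJ
  rw [← card_JF]
  apply Finset.prod_le_pow_card
  intro i _
  have := pJ_le_BP k s i
  omega

theorem IJ_le_pow (m : Sq) (k : ℕ) {l' l : ℕ} (h : l' ≤ l) : IJ m k l l' ≤ (BP k ^ 7) ^ l := by
  unfold IJ
  rw [← pow_mul, mul_comm 7 l, pow_mul, ← card_JF]
  apply Finset.prod_le_pow_card
  intro i _
  have hB : 0 < BP k := BP_pos k
  refine (Nat.pow_le_pow_left (pJ_le_BP k _ i) _).trans (Nat.pow_le_pow_right hB ?_)
  have hc : ∀ g : Fin 3 ⊕ Option (ℕ × Fin 3),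
      (ct (ins m k) own (ex m k) g l - ct (ins m k) own (ex m k) g l') / 2 ≤ l := by
    intro g
    have h1 := ct_sub (ins := ins m k) (mo := own) (ex := ex m k) g h
    have h2 := card_filter_le (Ico l' l) (fun i => ow (ins m k) own (ex m k) i = g)
    rw [Nat.card_Ico] at h2
    omega
  rcases i with f | i
  · exact hc (Sum.inl f)
  · refine Fin.cases ?_ (fun f => ?_) i
    · exact hc (Sum.inr none)
    · exact hc (Sum.inr (some (sL m k l + 1, f)))

/-- `(2 BP) ^ 7` to the `l` is at most `exp (2 ^ q * l)` -/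
theorem pow_le_exp {m : Sq} (hm : OkF m) {l n : ℕ} (hn : n ≤ ((2 * BP m.k) ^ 7) ^ l) :
    (n : ℝ) ≤ Real.exp (2 ^ m.q 0 * l) := by
  have h1 : (n : ℝ) ≤ ((2 * BP m.k : ℕ) : ℝ) ^ (7 * l) := by
    rw [← pow_mul] at hn
    exact_mod_cast hn
  have h2 : ((2 * BP m.k : ℕ) : ℝ) ≤ Real.exp ((2 * BP m.k : ℕ) : ℝ) := by
    have := Real.add_one_le_exp ((2 * BP m.k : ℕ) : ℝ)
    linarith
  refine h1.trans ((pow_le_pow_left₀ (Nat.cast_nonneg _) h2 _).trans ?_)
  rw [← Real.exp_nat_mul]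
  apply Real.exp_le_exp.2
  have h3 : 7 * (2 * BP m.k) ≤ 2 ^ m.q 0 := by
    have h4 := hm.big
    have h5 : 2 ^ m.gr 0 ≤ 2 ^ m.q 0 :=
      Nat.pow_le_pow_right (by norm_num) (by have := hm.grq; omega)
    have h6 : 7 * (2 * BP m.k) ≤ 2 ^ 40 * BP m.k := by
      rw [← mul_assoc]
      exact Nat.mul_le_mul_right _ (by norm_num)
    omega
  have h4 : ((7 * (2 * BP m.k) : ℕ) : ℝ) ≤ (2 : ℝ) ^ m.q 0 := by exact_mod_cast h3
  calc ((7 * l : ℕ) : ℝ) * ((2 * BP m.k : ℕ) : ℝ) = ((7 * (2 * BP m.k) : ℕ) : ℝ) * l := by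
        push_cast
        ring
    _ ≤ _ := mul_le_mul_of_nonneg_right h4 (Nat.cast_nonneg _)

/-- **Z8** -/
theorem sizeZS {m : Sq} (hm : OkF m) : SizeZS m m.k := by
  obtain ⟨l0, h0⟩ := exists_late (k := m.k) hm.toOk 0 0
  have hB : 0 < BP m.k := BP_pos m.k
  have hR : 0 < RT m m.k m.k := RT_pos m m.k m.k
  refine ⟨l0 + 35 * RT m m.k m.k + (2 * BP m.k) ^ 7, fun l hl => ⟨?_, ?_, fun l' hl' _ => ?_⟩⟩
  · apply pow_le_exp hm
    have h1 := NL_le_pow m m.k l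
    have h2 : 1 ≤ RT m m.k m.k * BP m.k ^ l := Nat.mul_pos hR (pow_pos hB _)
    have h4 : 35 * RT m m.k m.k ≤ 2 ^ l :=
      le_trans (by omega) (Nat.lt_two_pow_self (n := l)).le
    calc 34 * NL m m.k l + 1 ≤ 34 * (RT m m.k m.k * BP m.k ^ l) + RT m m.k m.k * BP m.k ^ l :=
          Nat.add_le_add (Nat.mul_le_mul_left _ h1) h2
      _ = 35 * RT m m.k m.k * BP m.k ^ l := by ring
      _ ≤ 2 ^ l * BP m.k ^ l := Nat.mul_le_mul_right _ h4
      _ = (2 * BP m.k) ^ l := (mul_pow _ _ _).symm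
      _ ≤ ((2 * BP m.k) ^ 7) ^ l :=
          Nat.pow_le_pow_left (Nat.le_self_pow (by norm_num) _) _
  · obtain ⟨-, a1, a2, -, -⟩ := h0 l (by omega)
    have hSS := SS_sv_succ_le' (k := m.k) hm.toOk a1 a2
    unfold wW
    rw [Nat.sub_zero]
    refine le_trans (SS_mono m (Nat.le_succ _)) (le_trans hSS ?_)
    exact Pool.Agent.Helper27.T5b.l1_le _ _
  · apply pow_le_exp hm
    have h1 := CJ_le m.k (sL m m.k l)
    have h2 := IJ_le_pow m m.k hl'
    have h4 : (2 * BP m.k) ^ 7 ≤ 2 ^ l :=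
      le_trans (by omega) (Nat.lt_two_pow_self (n := l)).le
    calc CJ m.k (sL m m.k l) * IJ m m.k l l' ≤ 2 ^ l * (BP m.k ^ 7) ^ l :=
          Nat.mul_le_mul (h1.trans h4) h2
      _ = (2 * BP m.k ^ 7) ^ l := (mul_pow _ _ _).symm
      _ ≤ ((2 * BP m.k) ^ 7) ^ l := by
          apply Nat.pow_le_pow_left
          rw [mul_pow]
          exact Nat.mul_le_mul_right _ (by norm_num)

end Pool.Agent.Helper2.T5g
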