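import Pool.Agent.Helper1.T5g.ZDefs

/-!
# T5g (MP_12a1af), lines 6 and 7, Z7: the number of the sums and the exponents

With a constant quotient `2 ^ (q + 1)` of the sizes the first windows have at least `l / 2 ^ (6 q + 8)`
digits.
-/

set_option autoImplicit false

namespace Pool.Agent.Helper2.T5g

open Finset
open Pool.Agent.Helper5.ET hiding Key Mk AA Rp keysOf el ext
open Pool.Agent.Helper27.T4
open Pool.Agent.Helper37.T5g
open Pool.Agent.Helper30.T5g hiding pz_prime pz_inj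
open Pool.Agent.Helper84.T5g Pool.Agent.Helper22.NEARg Pool.Agent.Helper1.T5g
open Pool.Agent.Helper99.T5g (OkF)

/-- the windows of the first levels are almost as long as the index of the state -/
theorem le_wW {m : Sq} {k l i : ℕ} (hm : OkF m) (h1 : bb 0 ≤ mL m k l)
    (h3 : 1000 * l ≤ 1001 * mL m k l) (hi : i ≤ rL m k l) (hi3 : i ≤ 3) :
    l ≤ 2 ^ (6 * m.q 0 + 8) * wW m k l i := by
  have h4 := lt_mul_SS (k := k) (y := mL m k l) (i := i) hm.toOk h1 (by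
    unfold rL sL at hi
    omega)
  have h5 : Gq m (sv m k (mL m k l)) = 2 ^ (m.q 0 + 1) := by
    unfold Gq
    rw [hm.qc]
  have h6 : m.kap (sv m k (mL m k l) + 1) = m.kap 0 := hm.kc _
  have h7 : SS m (sv m k (mL m k l) - i) = wW m k l i := rfl
  rw [h5, h6, h7] at h4
  have h8 : 4 * 2 ^ m.kap 0 * (2 ^ (m.q 0 + 1)) ^ (i + 2) ≤ 2 ^ (6 * m.q 0 + 7) := by
    have e : 4 * 2 ^ m.kap 0 * (2 ^ (m.q 0 + 1)) ^ (i + 2) =
        2 ^ (2 + m.kap 0 + (m.q 0 + 1) * (i + 2)) := by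
      rw [← pow_mul, show (4 : ℕ) = 2 ^ 2 from rfl, ← pow_add, ← pow_add]
    rw [e]
    apply Nat.pow_le_pow_right (by norm_num)
    have h9 := hm.kaple
    have h10 : (m.q 0 + 1) * (i + 2) ≤ (m.q 0 + 1) * 5 := Nat.mul_le_mul_left _ (by omega)
    omega
  have h9 : mL m k l ≤ 2 ^ (6 * m.q 0 + 7) * wW m k l i :=
    h4.le.trans (Nat.mul_le_mul_right _ h8)
  have h10 : l ≤ 2 * mL m k l := by omega
  calc l ≤ 2 * mL m k l := h10
    _ ≤ 2 * (2 ^ (6 * m.q 0 + 7) * wW m k l i) := Nat.mul_le_mul_left _ h9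
    _ = _ := by ring

/-- **Z7** from Z0 -/
theorem endS_of {k0 : ℕ} (hZ : ∀ m : Sq, OkF m → k0 ≤ m.k → HzS m m.k) : EndS := by
  refine ⟨6000 * 10, k0, fun m hm hk => ?_⟩
  obtain ⟨l2, h2⟩ := exists_late (k := m.k) hm.toOk 0 0
  obtain ⟨K1, hK1⟩ := hZ m hm hk
  obtain ⟨T, hT⟩ : ∃ T : ℕ, T = 2 ^ (12 * m.q 0 + 16) := ⟨_, rfl⟩
  refine ⟨1 / 2, l2 + K1 + T, by norm_num, fun l' l hK hD => ?_⟩
  obtain ⟨hlt, h3, h4, -, -, -, -⟩ := hK1 l' l (by omega) hD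
  obtain ⟨-, a1, a2, -, a3⟩ := h2 l (by omega)
  have hW := le_wW hm a1 a3 h4 h3
  have hl : 2 ^ (12 * m.q 0 + 16) ≤ l := by
    rw [← hT]
    omega
  have hWpos : 0 < wW m m.k l (hz m m.k l' l) := SS_pos _ _
  generalize wW m m.k l (hz m m.k l' l) = W at hW hWpos ⊢
  have hWr : (l : ℝ) ≤ 2 ^ (6 * m.q 0 + 8) * (W : ℝ) := by exact_mod_cast hW
  have hq := hm.q 0
  refine ⟨?_, 200 * (2 ^ (9 * m.q 0 + 8) + 1), Nat.succ_le_of_lt (by positivity), ?_, ?_⟩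
  · rw [← Real.sqrt_eq_rpow]
    apply Real.sqrt_le_iff.2
    refine ⟨Nat.cast_nonneg _, ?_⟩
    have e1 : 2 ^ (6 * m.q 0 + 8) * 2 ^ (6 * m.q 0 + 8) = 2 ^ (12 * m.q 0 + 16) := by
      rw [← pow_add]
      congr 1
      ring
    have e2 : 2 ^ (6 * m.q 0 + 8) ≤ W := by
      have h5 : 2 ^ (6 * m.q 0 + 8) * 2 ^ (6 * m.q 0 + 8) ≤ 2 ^ (6 * m.q 0 + 8) * W := by
        rw [e1]
        exact hl.trans hW
      exact Nat.le_of_mul_le_mul_left h5 (by positivity)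
    have e3 : l ≤ W ^ 2 := by
      rw [pow_two]
      exact hW.trans (Nat.mul_le_mul_right _ e2)
    exact_mod_cast e3
  · have e1 : ((200 * (2 ^ (9 * m.q 0 + 8) + 1) : ℕ) : ℝ) * ((W : ℝ) / 200) =
        2 ^ (9 * m.q 0 + 8) * (W : ℝ) + W := by
      push_cast
      ring
    rw [e1]
    have e2 : (2 : ℝ) ^ (3 * m.q 0) * (2 ^ (6 * m.q 0 + 8) * (W : ℝ)) =
        2 ^ (9 * m.q 0 + 8) * (W : ℝ) := by
      rw [← mul_assoc, ← pow_add]
      congr 2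
      ring
    have e3 := mul_le_mul_of_nonneg_left hWr (show (0 : ℝ) ≤ 2 ^ (3 * m.q 0) by positivity)
    linarith
  · have e1 : 200 * (2 ^ (9 * m.q 0 + 8) + 1) + 1 ≤ 2 ^ (10 * m.q 0) := by
      have e2 : 2 ^ (9 * m.q 0 + 8) * 2 ^ 9 ≤ 2 ^ (10 * m.q 0) := by
        rw [← pow_add]
        exact Nat.pow_le_pow_right (by norm_num) (by omega)
      have e3 : 1 ≤ 2 ^ (9 * m.q 0 + 8) := Nat.one_le_two_pow
      omega
    refine (Nat.pow_le_pow_left e1 _).trans (le_of_eq ?_)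
    rw [← pow_mul]
    congr 1
    ring

end Pool.Agent.Helper2.T5g
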